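import Pool.Agent.W889.TV.Basic
import Mathlib.GroupTheory.CosetCover

set_option autoImplicit false

/-! Groups of permutations with locally finite algebraic closure: generic colourings. -/

namespace Pool.Agent.W889.TW

open Set Order
open scoped Pointwise
open Pool.Agent.W889.VC (BP)
open Pool.Agent.W889.TV (bfS)

section col

variable {Γ A B : Type} [Group Γ] (φ : Γ →* Equiv.Perm A) (ψ : Γ →* Equiv.Perm B) (j : B → A)

/-- the orbit of `b` over the finite set `D` -/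
def Ob (D : Finset A) (b : B) : Set B := {x | ∃ g, (∀ d ∈ D, φ g d = d) ∧ ψ g b = x}

/-- the finite set `D` is closed -/
def Cl (D : Finset A) : Prop := ∀ b, j b ∉ D → (Ob φ ψ D b).Infinite

/-- all colour patterns occur -/
def Gen (c : B → ℕ) : Prop :=
  ∀ D : Finset A, Cl φ ψ j D → ∀ (S : Finset B) (p : B → ℕ), (∀ s ∈ S, j s ∉ D) →
    ∃ g, (∀ d ∈ D, φ g d = d) ∧ ∀ s ∈ S, c (ψ g s) = p s

variable {φ ψ j}

theorem hinv {C : Type} (χ : Γ →* Equiv.Perm C) (g : Γ) (x : C) : χ g⁻¹ (χ g x) = x := by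
  rw [← Equiv.Perm.mul_apply, ← map_mul]
  simp

theorem hinv' {C : Type} (χ : Γ →* Equiv.Perm C) (g : Γ) (x : C) : χ g (χ g⁻¹ x) = x := by
  rw [← Equiv.Perm.mul_apply, ← map_mul]
  simp

theorem hmul {C : Type} (χ : Γ →* Equiv.Perm C) (g h : Γ) (x : C) : χ (g * h) x = χ g (χ h x) := by
  rw [map_mul, Equiv.Perm.mul_apply]

theorem cl_image [DecidableEq A] (hj : ∀ g b, j (ψ g b) = φ g (j b)) {D : Finset A}
    (h : Cl φ ψ j D) (g : Γ) : Cl φ ψ j (D.image (φ g)) := by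
  intro b hb
  have h1 : j (ψ g⁻¹ b) ∉ D := by
    intro hd
    apply hb
    rw [Finset.mem_image]
    refine ⟨_, hd, ?_⟩
    rw [hj, hinv']
  have h2 := (h _ h1).image (f := ψ g) (ψ g).injective.injOn
  refine h2.mono ?_
  rintro _ ⟨x, ⟨k, hk, rfl⟩, rfl⟩
  refine ⟨g * k * g⁻¹, fun d hd => ?_, ?_⟩
  · rw [Finset.mem_image] at hd
    obtain ⟨d, hd, rfl⟩ := hd
    rw [hmul, hmul, hinv, hk d hd]
  · rw [hmul, hmul]

/-- closed finite sets are cofinal -/
theorem cl_cofinal (hfin : ∀ D : Finset A, {b | (Ob φ ψ D b).Finite}.Finite)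
    (hj : ∀ g b, j (ψ g b) = φ g (j b)) (F : Finset A) :
    ∃ D, F ⊆ D ∧ Cl φ ψ j D := by
  classical
  refine ⟨F ∪ (hfin F).toFinset.image j, Finset.subset_union_left, ?_⟩
  intro b hb
  rw [Finset.mem_union, not_or] at hb
  obtain ⟨-, hb2⟩ := hb
  have hb3 : ¬ (Ob φ ψ F b).Finite := by
    intro hf
    apply hb2
    rw [Finset.mem_image]
    exact ⟨b, by simpa using hf, rfl⟩
  intro hfinD
  apply hb3
  set E := (hfin F).toFinset with hE
  -- the finitely many restrictions to the closure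
  let R : Set (E → B) := {w | ∃ g, (∀ d ∈ F, φ g d = d) ∧ ∀ e : E, w e = ψ g e.1}
  have hR : R.Finite := by
    have h1 : (Set.pi Set.univ (fun e : E => Ob φ ψ F e.1)).Finite := by
      refine Set.Finite.pi (fun e => ?_)
      have h2 : e.1 ∈ (hfin F).toFinset := by
        rw [← hE]
        exact e.2
      rw [Set.Finite.mem_toFinset] at h2
      exact h2
    refine h1.subset ?_
    rintro w ⟨g, hg, hw⟩ e -
    exact ⟨g, hg, (hw e).symm⟩
  let k : (E → B) → Γ := fun w =>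
    if h : ∃ g, (∀ d ∈ F, φ g d = d) ∧ ∀ e : E, w e = ψ g e.1 then h.choose else 1
  have hk : ∀ w, (∃ g, (∀ d ∈ F, φ g d = d) ∧ ∀ e : E, w e = ψ g e.1) →
      (∀ d ∈ F, φ (k w) d = d) ∧ ∀ e : E, w e = ψ (k w) e.1 := by
    intro w hw
    have : k w = hw.choose := dif_pos hw
    rw [this]
    exact hw.choose_spec
  have hsub : Ob φ ψ F b ⊆ ⋃ w ∈ R, (fun x => ψ (k w) x) '' Ob φ ψ (F ∪ E.image j) b := by
    rintro _ ⟨g, hg, rfl⟩
    rw [mem_iUnion₂]
    refine ⟨fun e => ψ g e.1, ⟨g, hg, fun e => rfl⟩, ?_⟩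
    have h1 := hk (fun e => ψ g e.1) ⟨g, hg, fun e => rfl⟩
    refine ⟨ψ ((k fun e => ψ g e.1)⁻¹ * g) b, ⟨(k fun e => ψ g e.1)⁻¹ * g, fun d hd => ?_, rfl⟩, ?_⟩
    · rw [Finset.mem_union] at hd
      rw [hmul]
      rcases hd with hd | hd
      · rw [hg d hd]
        conv_lhs => rw [← h1.1 d hd]
        exact hinv _ _ _
      · rw [Finset.mem_image] at hd
        obtain ⟨e, he, rfl⟩ := hd
        rw [← hj g, h1.2 ⟨e, he⟩, hj, hinv]
    · show ψ (k fun e => ψ g e.1) (ψ ((k fun e => ψ g e.1)⁻¹ * g) b) = ψ g b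
      rw [← hmul, mul_inv_cancel_left]
  refine Set.Finite.subset ?_ hsub
  exact hR.biUnion fun w _ => hfinD.image _

/-- Neumann's lemma -/
theorem move {D : Finset A} (h : Cl φ ψ j D) (S T : Finset B) (hS : ∀ s ∈ S, j s ∉ D) :
    ∃ g, (∀ d ∈ D, φ g d = d) ∧ ∀ s ∈ S, ψ g s ∉ T := by
  classical
  by_contra hcon
  push Not at hcon
  let G0 : Subgroup Γ :=
    { carrier := {g | ∀ d ∈ D, φ g d = d}
      one_mem' := fun d _ => by rw [map_one]; rfl
      mul_mem' := fun {g k} hg hk d hd => by rw [hmul, hk d hd, hg d hd]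
      inv_mem' := fun {g} hg d hd => by
        conv_lhs => rw [← hg d hd]
        exact hinv _ _ _ }
  let H : B × B → Subgroup G0 := fun q =>
    { carrier := {g | ψ g.1 q.1 = q.1}
      one_mem' := by show ψ (1 : Γ) q.1 = q.1; rw [map_one]; rfl
      mul_mem' := fun {g k} hg hk => by
        show ψ (g.1 * k.1) q.1 = q.1
        rw [hmul, hk, hg]
      inv_mem' := fun {g} hg => by
        show ψ (g.1⁻¹) q.1 = q.1
        have hg' : ψ g.1 q.1 = q.1 := hg
        conv_lhs => rw [← hg']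
        exact hinv _ _ _ }
  let r : B × B → G0 := fun q => if hq : ∃ g : G0, ψ g.1 q.1 = q.2 then hq.choose else 1
  have hr : ∀ q, (∃ g : G0, ψ g.1 q.1 = q.2) → ψ (r q).1 q.1 = q.2 := by
    intro q hq
    have : r q = hq.choose := dif_pos hq
    rw [this]
    exact hq.choose_spec
  have hcov : ⋃ q ∈ S ×ˢ T, r q • (H q : Set G0) = Set.univ := by
    rw [Set.eq_univ_iff_forall]
    intro g
    obtain ⟨s, hs, hst⟩ := hcon g.1 g.2
    rw [mem_iUnion₂]
    refine ⟨(s, ψ g.1 s), Finset.mem_product.2 ⟨hs, hst⟩, ?_⟩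
    rw [Set.mem_smul_set_iff_inv_smul_mem]
    show ψ ((r (s, ψ g.1 s))⁻¹ * g).1 s = s
    have h2 : ψ (r (s, ψ g.1 s)).1 s = ψ g.1 s := hr (s, ψ g.1 s) ⟨g, rfl⟩
    show ψ ((r (s, ψ g.1 s)).1⁻¹ * g.1) s = s
    rw [hmul]
    exact (congrArg (ψ (r (s, ψ g.1 s)).1⁻¹) h2.symm).trans (hinv ψ _ _)
  obtain ⟨q, hq, hfi⟩ := Subgroup.exists_finiteIndex_of_leftCoset_cover hcov
  rw [Finset.mem_product] at hq
  apply h q.1 (hS q.1 hq.1)
  have hquot : Finite (G0 ⧸ H q) := Subgroup.finite_quotient_of_finiteIndex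
  refine (Set.finite_range (fun x : G0 ⧸ H q => ψ x.out.1 q.1)).subset ?_
  rintro _ ⟨g, hg, rfl⟩
  refine ⟨QuotientGroup.mk (⟨g, hg⟩ : G0), ?_⟩
  obtain ⟨k, hk⟩ := QuotientGroup.mk_out_eq_mul (H q) (⟨g, hg⟩ : G0)
  show ψ (Quotient.out (QuotientGroup.mk (⟨g, hg⟩ : G0) : G0 ⧸ H q)).1 q.1 = ψ g q.1
  rw [hk]
  show ψ (g * k.1.1) q.1 = ψ g q.1
  rw [hmul]
  congr 1
  exact k.2

variable (φ ψ j) in
/-- a colouring of the parameters is matched by `g` on the closed set `D` -/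
def Mt (c c' : B → ℕ) (τ : Equiv.Perm ℕ) (D : Finset A) (g : Γ) : Prop :=
  Cl φ ψ j D ∧ ∀ b, j b ∈ D → c' (ψ g b) = τ (c b)

/-- the extension step -/
theorem step (hfin : ∀ D : Finset A, {b | (Ob φ ψ D b).Finite}.Finite)
    (hji : Function.Injective j) (hj : ∀ g b, j (ψ g b) = φ g (j b)) {c c' : B → ℕ}
    (h' : Gen φ ψ j c') {τ : Equiv.Perm ℕ} {D : Finset A} {g : Γ} (hm : Mt φ ψ j c c' τ D g)
    (a : A) : ∃ D' g', D ⊆ D' ∧ a ∈ D' ∧ (∀ x ∈ D, φ g' x = φ g x) ∧ Mt φ ψ j c c' τ D' g' := by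
  classical
  obtain ⟨D', hD1, hD2⟩ := cl_cofinal hfin hj (insert a D)
  have hsub : D ⊆ D' := (Finset.subset_insert a D).trans hD1
  let S : Finset B := (D'.preimage j hji.injOn).filter fun b => j b ∉ D
  have hS : ∀ b, b ∈ S ↔ j b ∈ D' ∧ j b ∉ D := fun b => by
    simp only [S, Finset.mem_filter, Finset.mem_preimage]
  obtain ⟨k, hk1, hk2⟩ := h' (D.image (φ g)) (cl_image hj hm.1 g) (S.image (ψ g))
    (fun b => τ (c (ψ g⁻¹ b))) (by
      intro s hs hd
      rw [Finset.mem_image] at hs hd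
      obtain ⟨b, hb, rfl⟩ := hs
      obtain ⟨d, hd, hdb⟩ := hd
      rw [hj] at hdb
      have := (φ g).injective hdb
      rw [hS] at hb
      exact hb.2 (this ▸ hd))
  have hkD : ∀ x ∈ D, φ k (φ g x) = φ g x := fun x hx => hk1 _ (Finset.mem_image_of_mem _ hx)
  refine ⟨D', k * g, hsub, hD1 (Finset.mem_insert_self _ _), fun x hx => ?_, hD2, fun b hb => ?_⟩
  · rw [hmul, hkD x hx]
  · by_cases hbD : j b ∈ D
    · have : ψ k (ψ g b) = ψ g b := by
        apply hji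
        rw [hj, hj, hkD _ hbD]
      rw [hmul, this]
      exact hm.2 b hbD
    · have := hk2 (ψ g b) (Finset.mem_image_of_mem _ ((hS b).2 ⟨hb, hbD⟩))
      rw [hmul, this, hinv]

theorem mt_symm [DecidableEq A] (hj : ∀ g b, j (ψ g b) = φ g (j b)) {c c' : B → ℕ}
    {τ : Equiv.Perm ℕ} {D : Finset A} {g : Γ} (hm : Mt φ ψ j c c' τ D g) :
    Mt φ ψ j c' c τ.symm (D.image (φ g)) g⁻¹ := by
  refine ⟨cl_image hj hm.1 g, fun b hb => ?_⟩
  have h1 : j (ψ g⁻¹ b) ∈ D := by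
    rw [Finset.mem_image] at hb
    obtain ⟨d, hd, hdb⟩ := hb
    rw [hj, ← hdb, hinv]
    exact hd
  have h2 := hm.2 _ h1
  rw [hinv'] at h2
  rw [h2, Equiv.symm_apply_apply]

/-- any two generic colourings are conjugate, with any permutation of the colours -/
theorem gen_conj [Countable A] (hfin : ∀ D : Finset A, {b | (Ob φ ψ D b).Finite}.Finite)
    (hji : Function.Injective j) (hj : ∀ g b, j (ψ g b) = φ g (j b))
    (h0 : Cl φ ψ j ∅)
    (closed : ∀ σ : Equiv.Perm A, (∀ F : Finset A, ∃ g, ∀ a ∈ F, φ g a = σ a) → ∃ g, φ g = σ)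
    {c c' : B → ℕ} (h : Gen φ ψ j c) (h' : Gen φ ψ j c') (τ : Equiv.Perm ℕ) :
    ∃ g, ∀ b, c' (ψ g b) = τ (c b) := by
  classical
  obtain ⟨e, he⟩ := bfS (A := A) (B := A)
    (fun f => ∃ D g, f = D.image (fun x => (x, φ g x)) ∧ Mt φ ψ j c c' τ D g)
    ⟨∅, 1, rfl, h0, fun b hb => absurd hb (Finset.notMem_empty _)⟩
    (by
      rintro _ ⟨D, g, rfl, hm⟩ a
      obtain ⟨D', g', h1, h2, h3, h4⟩ := step hfin hji hj h' hm a
      refine ⟨φ g' a, _, ?_, Finset.mem_image_of_mem (fun x => (x, φ g' x)) h2, D', g', rfl, h4⟩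
      intro q hq
      rw [Finset.mem_image] at hq ⊢
      obtain ⟨x, hx, rfl⟩ := hq
      exact ⟨x, h1 hx, by rw [h3 x hx]⟩)
    (by
      rintro _ ⟨D, g, rfl, hm⟩ b
      obtain ⟨D', g', h1, h2, h3, h4⟩ := step hfin hji hj h (mt_symm hj hm) b
      have h5 := mt_symm hj h4
      rw [Equiv.symm_symm] at h5
      refine ⟨φ g' b, _, ?_, ?_, D'.image (φ g'), g'⁻¹, rfl, h5⟩
      · intro q hq
        rw [Finset.mem_image] at hq ⊢
        obtain ⟨x, hx, rfl⟩ := hq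
        have h6 : φ g' (φ g x) = x := by
          rw [h3 _ (Finset.mem_image_of_mem _ hx), hinv]
        refine ⟨x, ?_, ?_⟩
        · rw [Finset.mem_image]
          exact ⟨φ g x, h1 (Finset.mem_image_of_mem _ hx), h6⟩
        · have : φ g'⁻¹ x = φ g x := by
            conv_lhs => rw [← h6]
            exact hinv _ _ _
          rw [this]
      · rw [Finset.mem_image]
        exact ⟨φ g' b, Finset.mem_image_of_mem _ h2, by rw [hinv]⟩)
    (by
      rintro _ ⟨D, g, rfl, -⟩ p hp q hq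
      rw [Finset.mem_image] at hp hq
      obtain ⟨x, -, rfl⟩ := hp
      obtain ⟨y, -, rfl⟩ := hq
      exact (φ g).injective.eq_iff.symm)
  obtain ⟨g, hg⟩ := closed e (fun F => by
    obtain ⟨_, ⟨D, g, rfl, -⟩, h2⟩ := he F
    refine ⟨g, fun a ha => ?_⟩
    have := h2 a ha
    rw [Finset.mem_image] at this
    obtain ⟨x, -, hx⟩ := this
    rw [Prod.mk.injEq] at hx
    rw [← hx.1]
    exact hx.2.trans (by rw [hx.1]))
  refine ⟨g, fun b => ?_⟩
  obtain ⟨_, ⟨D, k, rfl, hm⟩, h2⟩ := he {j b}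
  have h3 := h2 (j b) (Finset.mem_singleton_self _)
  rw [Finset.mem_image] at h3
  obtain ⟨x, hx, hxe⟩ := h3
  rw [Prod.mk.injEq] at hxe
  obtain ⟨rfl, hxe⟩ := hxe
  have h4 : ψ g b = ψ k b := by
    apply hji
    rw [hj, hj, hg, ← hxe]
  rw [h4]
  exact hm.2 b hx

theorem gen_map (hj : ∀ g b, j (ψ g b) = φ g (j b)) {c : B → ℕ} (h : Gen φ ψ j c) (g : Γ)
    (τ : Equiv.Perm ℕ) : Gen φ ψ j (fun b => τ (c (ψ g⁻¹ b))) := by
  classical
  intro D hD S p hS
  obtain ⟨k, h1, h2⟩ := h (D.image (φ g⁻¹)) (cl_image hj hD g⁻¹) (S.image (ψ g⁻¹))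
    (fun b => τ.symm (p (ψ g b))) (by
      intro s hs hd
      rw [Finset.mem_image] at hs hd
      obtain ⟨b, hb, rfl⟩ := hs
      obtain ⟨d, hd, hdb⟩ := hd
      rw [hj] at hdb
      have := (φ g⁻¹).injective hdb
      exact hS b hb (this ▸ hd))
  refine ⟨g * k * g⁻¹, fun d hd => ?_, fun s hs => ?_⟩
  · rw [hmul, hmul, h1 _ (Finset.mem_image_of_mem _ hd), hinv']
  · show τ (c (ψ g⁻¹ (ψ (g * k * g⁻¹) s))) = p s
    have h3 := h2 _ (Finset.mem_image_of_mem _ hs)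
    rw [hmul, hmul, hinv, h3, hinv', Equiv.apply_symm_apply]

theorem gen_surj [Nonempty B] (h0 : Cl φ ψ j ∅) {c : B → ℕ} (h : Gen φ ψ j c) (i : ℕ) :
    ∃ b, c b = i := by
  obtain ⟨g, -, hg⟩ := h ∅ h0 {Classical.arbitrary B} (fun _ => i)
    (fun _ _ => Finset.notMem_empty _)
  exact ⟨_, hg _ (Finset.mem_singleton_self _)⟩

/-- the countable form of genericity -/
theorem gen_iff {c : B → ℕ} : Gen φ ψ j c ↔
    ∀ (D : Finset A) (S : Finset B) (p : S → ℕ), (Cl φ ψ j D ∧ ∀ s ∈ S, j s ∉ D) →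
      ∃ w : S → B, (∃ g, (∀ d ∈ D, φ g d = d) ∧ ∀ s : S, ψ g s = w s) ∧ ∀ s : S, c (w s) = p s := by
  classical
  constructor
  · rintro h D S p ⟨hD, hS⟩
    obtain ⟨g, h1, h2⟩ := h D hD S (fun b => if hb : b ∈ S then p ⟨b, hb⟩ else 0) hS
    refine ⟨fun s => ψ g s, ⟨g, h1, fun s => rfl⟩, fun s => ?_⟩
    have := h2 s s.2
    rw [dif_pos s.2] at this
    exact this
  · intro h D hD S p hS
    obtain ⟨w, ⟨g, h1, h2⟩, h3⟩ := h D S (fun s => p s) ⟨hD, hS⟩
    exact ⟨g, h1, fun s hs => by rw [h2 ⟨s, hs⟩]; exact h3 ⟨s, hs⟩⟩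

/-- pairwise disjoint realisations of countably many requirements -/
theorem exists_disj {C : Type} (P : ℕ → Finset C → Prop)
    (h : ∀ n (T : Finset C), ∃ E, P n E ∧ ∀ x ∈ E, x ∉ T) :
    ∃ E : ℕ → Finset C, (∀ n, P n (E n)) ∧ ∀ m n, m ≠ n → ∀ x ∈ E m, x ∉ E n := by
  classical
  choose E h1 h2 using h
  let r : ℕ → Finset C × Finset C := fun n => Nat.rec (∅, E 0 ∅)
    (fun n q => (q.2 ∪ q.1, E (n + 1) (q.2 ∪ q.1))) n
  have hr : ∀ n, r (n + 1) = ((r n).2 ∪ (r n).1, E (n + 1) ((r n).2 ∪ (r n).1)) := fun n => rfl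
  have hmem : ∀ m n, m < n → (r m).2 ⊆ (r n).1 := by
    intro m n hmn
    induction n with
    | zero => omega
    | succ n ih =>
      rw [hr]
      rcases Nat.lt_succ_iff_lt_or_eq.1 hmn with h' | h'
      · exact (ih h').trans Finset.subset_union_right
      · rw [h']
        exact Finset.subset_union_left
  have hE : ∀ n, (r n).2 = E n (r n).1 := by
    intro n
    cases n with
    | zero => rfl
    | succ n => rw [hr]
  have key : ∀ m n, m < n → ∀ x ∈ (r m).2, x ∉ (r n).2 := by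
    intro m n hmn x hx hxn
    rw [hE n] at hxn
    exact h2 n (r n).1 x hxn (hmem m n hmn hx)
  refine ⟨fun n => (r n).2, fun n => by show P n (r n).2; rw [hE]; exact h1 _ _, ?_⟩
  intro m n hmn x hx hxn
  rcases lt_or_gt_of_ne hmn with h' | h'
  · exact key m n h' x hx hxn
  · exact key n m h' x hxn hx

/-- generic colourings exist -/
theorem gen_exists [Countable A] [Countable B] : ∃ c : B → ℕ, Gen φ ψ j c := by
  classical
  let ι := Option {t : Finset A × (Σ S : Finset B, S → ℕ) //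
    Cl φ ψ j t.1 ∧ ∀ s ∈ t.2.1, j s ∉ t.1}
  obtain ⟨f, hf⟩ := exists_surjective_nat ι
  -- the requirement number `n` is realised by a group element with the given image
  have hreq : ∀ n (T : Finset B), ∃ E : Finset B,
      (∀ t, f n = some t → ∃ g, (∀ d ∈ t.1.1, φ g d = d) ∧ E = t.1.2.1.image (ψ g)) ∧
        ∀ x ∈ E, x ∉ T := by
    intro n T
    rcases hfn : f n with _ | t
    · exact ⟨∅, fun t ht => absurd ht (by simp), fun x hx => absurd hx (Finset.notMem_empty x)⟩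
    · obtain ⟨g, h1, h2⟩ := move t.2.1 t.1.2.1 T t.2.2
      refine ⟨t.1.2.1.image (ψ g), fun t' ht' => ?_, fun x hx => ?_⟩
      · rw [Option.some.injEq] at ht'
        subst ht'
        exact ⟨g, h1, rfl⟩
      · rw [Finset.mem_image] at hx
        obtain ⟨s, hs, rfl⟩ := hx
        exact h2 s hs
  obtain ⟨E, hE1, hE2⟩ := exists_disj _ hreq
  -- the colouring
  let P : ℕ → B → ℕ → Prop := fun n x i => ∃ t, ∃ ht : f n = some t, ∃ s : t.1.2.1,
    ψ (hE1 n t ht).choose s = x ∧ t.1.2.2 s = i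
  have hPE : ∀ n x i, P n x i → x ∈ E n := by
    rintro n x i ⟨t, ht, s, rfl, -⟩
    have h3 := (hE1 n t ht).choose_spec.2
    have h4 : ψ (hE1 n t ht).choose s.1 ∈ t.1.2.1.image (ψ (hE1 n t ht).choose) :=
      Finset.mem_image_of_mem _ s.2
    exact (Finset.ext_iff.1 h3 _).2 h4
  have hPu : ∀ n x i n' i', P n x i → P n' x i' → i = i' := by
    intro n x i n' i' h h'
    have hn : n = n' := by
      by_contra hne
      exact hE2 n n' hne x (hPE _ _ _ h) (hPE _ _ _ h')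
    subst hn
    obtain ⟨t, ht, s, h1, h2⟩ := h
    obtain ⟨t', ht', s', h1', h2'⟩ := h'
    have htt : t = t' := by
      rw [ht, Option.some.injEq] at ht'
      exact ht'
    subst htt
    have hss : s = s' := by
      apply Subtype.ext
      exact (ψ _).injective (h1.trans h1'.symm)
    rw [← h2, ← h2', hss]
  let c : B → ℕ := fun x => if h : ∃ n i, P n x i then h.choose_spec.choose else 0
  refine ⟨c, fun D hD S p hS => ?_⟩
  let t : {t : Finset A × (Σ S : Finset B, S → ℕ) //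
    Cl φ ψ j t.1 ∧ ∀ s ∈ t.2.1, j s ∉ t.1} := ⟨(D, ⟨S, fun s => p s⟩), hD, hS⟩
  obtain ⟨n, hn⟩ := hf (some t)
  have h1 := (hE1 n t hn).choose_spec.1
  refine ⟨(hE1 n t hn).choose, h1, fun s hs => ?_⟩
  have hP : P n (ψ (hE1 n t hn).choose s) (p s) := ⟨t, hn, ⟨s, hs⟩, rfl, rfl⟩
  have hex : ∃ m i, P m (ψ (hE1 n t hn).choose s) i := ⟨n, _, hP⟩
  have hc : c (ψ (hE1 n t hn).choose s) = hex.choose_spec.choose := dif_pos hex
  rw [hc]
  exact hPu _ _ _ _ _ hex.choose_spec.choose_spec hP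

end col

end Pool.Agent.W889.TW
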