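import Pool.Agent.W889.TW.Basic
import Pool.Agent.W889.TV.Norm

set_option autoImplicit false

/-! The induced space and the transfer, for locally finite algebraic closure. -/

namespace Pool.Agent.W889.TW

open Set
open Pool.Agent.W889.VC
open Pool.Agent.W889.TV (TVC nuF nu nu_apply nuF_perm nu_perm bp_nuF measurable_perm)

section space

variable {Γ A B : Type} [Group Γ] (φ : Γ →* Equiv.Perm A) (ψ : Γ →* Equiv.Perm B) (j : B → A)
  (κ : B → ℕ)

/-- generic colourings in normal form -/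
def Nf (c : B → ℕ) : Prop := Gen φ ψ j c ∧ ∀ i, nuF κ c i = i

/-- the induced space -/
def Zs (X : Type) : Type := {c : B → ℕ // Nf φ ψ j κ c} × X

instance (X : Type) [MeasurableSpace X] : MeasurableSpace (Zs φ ψ j κ X) :=
  inferInstanceAs (MeasurableSpace ({c : B → ℕ // Nf φ ψ j κ c} × X))

theorem bp_Nf {Y : Type} [MeasurableSpace Y] [Countable A] [Countable B] {C : Y → B → ℕ}
    (h : ∀ a i, BP (fun y => C y a = i)) : BP (fun y => Nf φ ψ j κ (C y)) := by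
  refine BP.and ?_ (BP.all fun i => bp_nuF h i i)
  refine (BP.all fun D : Finset A => BP.all fun S : Finset B => BP.all fun p : S → ℕ =>
    (BP.const (Cl φ ψ j D ∧ ∀ s ∈ S, j s ∉ D)).imp <| BP.ex fun w : S → B =>
      (BP.const (∃ g, (∀ d ∈ D, φ g d = d) ∧ ∀ s : S, ψ g s = w s)).and <|
        BP.all fun s : S => h (w s) (p s)).congr fun y => ?_
  exact gen_iff.symm

theorem measurableSet_Nf [Countable A] [Countable B] :
    MeasurableSet {c : B → ℕ | Nf φ ψ j κ c} :=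
  bp_Nf φ ψ j κ (C := fun c => c)
    (fun a i => (measurable_pi_apply a : Measurable fun c : B → ℕ => c a)
      (measurableSet_singleton i))

instance (X : Type) [MeasurableSpace X] [StandardBorelSpace X] [Countable A] [Countable B] :
    StandardBorelSpace (Zs φ ψ j κ X) := by
  have : StandardBorelSpace {c : B → ℕ // Nf φ ψ j κ c} :=
    (measurableSet_Nf φ ψ j κ).standardBorel
  exact inferInstanceAs (StandardBorelSpace ({c : B → ℕ // Nf φ ψ j κ c} × X))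

variable {φ ψ j κ}

/-- the transported colouring -/
def tr (ψ : Γ →* Equiv.Perm B) (g : Γ) (c : B → ℕ) : B → ℕ := fun a => c (ψ g⁻¹ a)

theorem tr_mul (g h : Γ) (c : B → ℕ) : tr ψ (g * h) c = tr ψ g (tr ψ h c) := by
  funext a
  unfold tr
  rw [mul_inv_rev, map_mul]
  rfl

/-- the standing assumptions -/
structure Hyp (φ : Γ →* Equiv.Perm A) (ψ : Γ →* Equiv.Perm B) (j : B → A) (κ : B → ℕ) :
    Prop where
  hκ : Function.Injective κ
  hji : Function.Injective j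
  hj : ∀ g b, j (ψ g b) = φ g (j b)
  h0 : Cl φ ψ j ∅
  ne : Nonempty B

theorem nu_one (H : Hyp φ ψ j κ) {c : B → ℕ} (h : Nf φ ψ j κ c) :
    nu κ c = 1 := by
  have := H.ne
  apply Equiv.ext
  intro i
  rw [nu_apply H.hκ (gen_surj H.h0 h.1), h.2]
  rfl

theorem nf_nrm (H : Hyp φ ψ j κ) {c : B → ℕ} (h : Gen φ ψ j c) :
    Nf φ ψ j κ (fun a => nu κ c (c a)) := by
  have := H.ne
  have h1 := gen_map H.hj h 1 (nu κ c)
  have e : (fun a => nu κ c (c (ψ 1⁻¹ a))) = fun a => nu κ c (c a) := by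
    funext a
    simp
  rw [e] at h1
  refine ⟨h1, fun i => ?_⟩
  obtain ⟨i, rfl⟩ := (nu κ c).surjective i
  rw [nuF_perm, nu_apply H.hκ (gen_surj H.h0 h)]

theorem gen_tr (H : Hyp φ ψ j κ) {c : B → ℕ} (h : Gen φ ψ j c) (g : Γ) :
    Gen φ ψ j (tr ψ g c) := gen_map H.hj h g 1

theorem surj (H : Hyp φ ψ j κ) {c : B → ℕ} (h : Gen φ ψ j c) : ∀ i, ∃ b, c b = i := by
  have := H.ne
  exact gen_surj H.h0 h

/-- the action on the induced space -/
noncomputable def act (H : Hyp φ ψ j κ) {X : Type}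
    [MulAction (Equiv.Perm ℕ) X] (g : Γ) (z : Zs φ ψ j κ X) : Zs φ ψ j κ X :=
  (⟨fun a => nu κ (tr ψ g z.1.1) (tr ψ g z.1.1 a), nf_nrm H (gen_tr H z.1.2.1 g)⟩,
    nu κ (tr ψ g z.1.1) • z.2)

/-- the action on the induced space -/
@[reducible] noncomputable def zAct (H : Hyp φ ψ j κ) (X : Type)
    [MulAction (Equiv.Perm ℕ) X] : MulAction Γ (Zs φ ψ j κ X) where
  smul g z := act H g z
  one_smul := by
    rintro ⟨⟨c, hc⟩, x⟩
    have e : tr ψ (1 : Γ) c = c := by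
      funext a
      unfold tr
      simp
    show act H 1 (⟨c, hc⟩, x) = _
    unfold act
    refine Prod.ext (Subtype.ext ?_) ?_
    · show (fun a => nu κ (tr ψ 1 c) (tr ψ 1 c a)) = c
      rw [e, nu_one H hc]
      rfl
    · show nu κ (tr ψ 1 c) • x = x
      rw [e, nu_one H hc, one_smul]
  mul_smul := by
    rintro g h ⟨⟨c, hc⟩, x⟩
    show act H (g * h) (⟨c, hc⟩, x) = act H g (act H h (⟨c, hc⟩, x))
    have e : tr ψ g (fun a => nu κ (tr ψ h c) (tr ψ h c a)) =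
        fun a => nu κ (tr ψ h c) (tr ψ (g * h) c a) := by
      rw [tr_mul]
      rfl
    have hp := nu_perm H.hκ (surj H (gen_tr H hc.1 (g * h))) (nu κ (tr ψ h c))
    unfold act
    refine Prod.ext (Subtype.ext ?_) ?_
    · show (fun a => nu κ (tr ψ (g * h) c) (tr ψ (g * h) c a)) =
        fun a => nu κ (tr ψ g (fun a => nu κ (tr ψ h c) (tr ψ h c a)))
          (tr ψ g (fun a => nu κ (tr ψ h c) (tr ψ h c a)) a)
      rw [e, ← hp]
      rfl
    · show nu κ (tr ψ (g * h) c) • x = nu κ (tr ψ g (fun a => nu κ (tr ψ h c) (tr ψ h c a))) •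
        (nu κ (tr ψ h c) • x)
      rw [e, ← hp, mul_smul]

theorem nu_of_perm (H : Hyp φ ψ j κ) {c : B → ℕ} (h : Nf φ ψ j κ c)
    (τ : Equiv.Perm ℕ) : nu κ (fun a => τ (c a)) = τ⁻¹ := by
  have h1 := nu_perm H.hκ (surj H h.1) τ
  rw [nu_one H h] at h1
  exact eq_inv_of_mul_eq_one_left h1

theorem act_eq (H : Hyp φ ψ j κ) {X : Type} [MulAction (Equiv.Perm ℕ) X]
    {c c' : B → ℕ} (h : Nf φ ψ j κ c) (h' : Nf φ ψ j κ c') (x : X) (τ : Equiv.Perm ℕ) (g : Γ)
    (hg : ∀ a, c' (ψ g a) = τ (c a)) :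
    act H g (⟨c, h⟩, x) = ((⟨c', h'⟩, τ • x) : Zs φ ψ j κ X) := by
  have e : tr ψ g c = fun a => τ⁻¹ (c' a) := by
    funext a
    have := hg (ψ g⁻¹ a)
    rw [hinv'] at this
    show c (ψ g⁻¹ a) = τ⁻¹ (c' a)
    rw [this]
    simp
  have h1 : nu κ (tr ψ g c) = τ := by
    rw [e, nu_of_perm H h' τ⁻¹, inv_inv]
  unfold act
  refine Prod.ext (Subtype.ext ?_) ?_
  · show (fun a => nu κ (tr ψ g c) (tr ψ g c a)) = c'
    rw [h1, e]
    funext a
    simp
  · show nu κ (tr ψ g c) • x = τ • x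
    rw [h1]

variable [MeasurableSpace Γ]

theorem bp_tr [Countable B] (hψ : ∀ a b, MeasurableSet {g | ψ g a = b}) {X : Type}
    [MeasurableSpace X] (a : B) (i : ℕ) :
    BP (fun p : Γ × Zs φ ψ j κ X => tr ψ p.1 p.2.1.1 a = i) := by
  have h1 : ∀ b, BP (fun p : Γ × Zs φ ψ j κ X => ψ p.1 b = a) := fun b =>
    measurable_fst (hψ b a)
  have hm : Measurable fun p : Γ × Zs φ ψ j κ X => p.2.1.1 :=
    measurable_subtype_coe.comp (measurable_fst.comp measurable_snd)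
  have h2 : ∀ b, BP (fun p : Γ × Zs φ ψ j κ X => p.2.1.1 b = i) := fun b =>
    ((measurable_pi_apply b).comp hm) (measurableSet_singleton i)
  refine (BP.ex fun b => (h1 b).and (h2 b)).congr fun p => ?_
  constructor
  · rintro ⟨b, h3, h4⟩
    show p.2.1.1 (ψ p.1⁻¹ a) = i
    rw [← h3, hinv]
    exact h4
  · intro h3
    exact ⟨ψ p.1⁻¹ a, hinv' _ _ _, h3⟩

theorem bp_nu (H : Hyp φ ψ j κ) [Countable B]
    (hψ : ∀ a b, MeasurableSet {g | ψ g a = b}) {X : Type} [MeasurableSpace X] (i n : ℕ) :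
    BP (fun p : Γ × Zs φ ψ j κ X => nu κ (tr ψ p.1 p.2.1.1) i = n) := by
  refine (bp_nuF (κ := κ) (C := fun p : Γ × Zs φ ψ j κ X => tr ψ p.1 p.2.1.1)
    (bp_tr hψ) i n).congr fun p => ?_
  rw [nu_apply H.hκ (surj H (gen_tr H p.2.1.2.1 p.1))]

theorem measurable_nat {Y : Type} [MeasurableSpace Y] {f : Y → ℕ} (h : ∀ n, BP fun y => f y = n) :
    Measurable f := measurable_to_countable' fun n => h n

theorem measurable_act (H : Hyp φ ψ j κ) [Countable B]
    (hψ : ∀ a b, MeasurableSet {g | ψ g a = b}) {X : Type} [MeasurableSpace X]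
    [MulAction (Equiv.Perm ℕ) X] [MeasurableSMul₂ (Equiv.Perm ℕ) X] :
    Measurable fun p : Γ × Zs φ ψ j κ X => act H p.1 p.2 := by
  have hnu : Measurable fun p : Γ × Zs φ ψ j κ X => nu κ (tr ψ p.1 p.2.1.1) :=
    measurable_perm fun i => measurable_nat fun n => bp_nu H hψ i n
  refine Measurable.prodMk ?_ ?_
  · refine Measurable.subtype_mk ?_
    refine measurable_pi_iff.2 fun a => measurable_nat fun n => ?_
    refine (BP.ex fun i => (bp_tr hψ a i).and (bp_nu H hψ i n)).congr fun p => ?_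
    constructor
    · rintro ⟨i, h1, h2⟩
      show nu κ (tr ψ p.1 p.2.1.1) (tr ψ p.1 p.2.1.1 a) = n
      rw [h1]
      exact h2
    · intro h
      exact ⟨_, rfl, h⟩
  · exact hnu.smul (measurable_snd.comp measurable_snd)

/-- the transfer -/
theorem transfer [Countable A] [Countable B] (H : Hyp φ ψ j κ)
    (hψ : ∀ a b, MeasurableSet {g | ψ g a = b})
    (closed : ∀ σ : Equiv.Perm A, (∀ F : Finset A, ∃ g, ∀ a ∈ F, φ g a = σ a) → ∃ g, φ g = σ)
    (hfin : ∀ D : Finset A, {b | (Ob φ ψ D b).Finite}.Finite) (hT : TVC Γ) :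
    TVC (Equiv.Perm ℕ) := by
  classical
  intro X _ _ _ _
  let _ := zAct H X
  have : MeasurableSMul₂ Γ (Zs φ ψ j κ X) := ⟨measurable_act H hψ⟩
  obtain ⟨c0, hc0⟩ := gen_exists (φ := φ) (ψ := ψ) (j := j)
  obtain ⟨c1, hc1⟩ : ∃ c, Nf φ ψ j κ c := ⟨_, nf_nrm H hc0⟩
  rcases hT (Zs φ ψ j κ X) with hcount | ⟨f, hf1, hf2⟩
  · left
    let F : Quotient (MulAction.orbitRel (Equiv.Perm ℕ) X) →
        Quotient (MulAction.orbitRel Γ (Zs φ ψ j κ X)) := fun q =>
      Quotient.mk _ ((⟨c1, hc1⟩, q.out) : Zs φ ψ j κ X)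
    have hF : Function.Injective F := by
      intro q r hqr
      have h1 := Quotient.exact hqr
      obtain ⟨g, hg⟩ : ∃ g : Γ, act H g ((⟨c1, hc1⟩, r.out) : Zs φ ψ j κ X) =
          ((⟨c1, hc1⟩, q.out) : Zs φ ψ j κ X) := h1
      have h2 : nu κ (tr ψ g c1) • r.out = q.out := congrArg Prod.snd hg
      rw [← Quotient.out_eq q, ← Quotient.out_eq r]
      exact Quotient.sound ⟨_, h2⟩
    exact hF.countable
  · right
    refine ⟨fun α => (f α).2, measurable_snd.comp hf1, fun α β hne => ?_⟩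
    rintro ⟨τ, hτ⟩
    obtain ⟨g, hg⟩ := gen_conj hfin H.hji H.hj H.h0 closed (f α).1.2.1 (f β).1.2.1 τ
    refine hf2 α β hne ⟨g, ?_⟩
    have h1 := act_eq H (f α).1.2 (f β).1.2 (f α).2 τ g hg
    show act H g (f α) = f β
    exact h1.trans (Prod.ext (Subtype.ext rfl) hτ)

end space

section final

variable {Γ A : Type} [Group Γ] {φ : Γ →* Equiv.Perm A}

/-- the action on an invariant set -/
def rst (φ : Γ →* Equiv.Perm A) (B : Set A) (hB : ∀ g, ∀ b ∈ B, φ g b ∈ B) :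
    Γ →* Equiv.Perm B where
  toFun g := ⟨fun b => ⟨φ g b, hB g b b.2⟩, fun b => ⟨φ g⁻¹ b, hB g⁻¹ b b.2⟩,
    fun b => Subtype.ext (hinv φ g b), fun b => Subtype.ext (hinv' φ g b)⟩
  map_one' := by
    apply Equiv.ext
    intro b
    apply Subtype.ext
    show φ 1 b = b
    rw [map_one]
    rfl
  map_mul' g h := by
    apply Equiv.ext
    intro b
    apply Subtype.ext
    show φ (g * h) b = φ g (φ h b)
    exact hmul φ g h b

variable [Countable A]

/-- the part of `B` which is not algebraic over the empty set -/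
def core (φ : Γ →* Equiv.Perm A) (B : Set A) : Set A :=
  {b | b ∈ B ∧ {x | ∃ g, φ g b = x}.Infinite}

omit [Countable A] in
theorem core_inv {B : Set A} (hB : ∀ g, ∀ b ∈ B, φ g b ∈ B) :
    ∀ g, ∀ b ∈ core φ B, φ g b ∈ core φ B := by
  rintro g b ⟨h1, h2⟩
  refine ⟨hB g b h1, h2.mono ?_⟩
  rintro _ ⟨k, rfl⟩
  exact ⟨k * g⁻¹, by rw [hmul, hinv]⟩

/-- what we need, from the hypotheses of the theorem -/
theorem setup {B : Set A} (hBinf : B.Infinite) (hB : ∀ g, ∀ b ∈ B, φ g b ∈ B)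
    (hfin : ∀ F : Finset A,
      {b | b ∈ B ∧ {x | ∃ g, (∀ c ∈ F, φ g c = c) ∧ φ g b = x}.Finite}.Finite) :
    ∃ κ : core φ B → ℕ, Hyp φ (rst φ (core φ B) (core_inv hB)) Subtype.val κ ∧
      ∀ D : Finset A, {b | (Ob φ (rst φ (core φ B) (core_inv hB)) D b).Finite}.Finite := by
  classical
  have hO : ∀ (D : Finset A) (b : core φ B), Subtype.val '' (Ob φ (rst φ (core φ B) (core_inv hB))
      D b) = {x | ∃ g, (∀ c ∈ D, φ g c = c) ∧ φ g b = x} := by
    intro D b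
    ext x
    constructor
    · rintro ⟨_, ⟨g, h1, rfl⟩, rfl⟩
      exact ⟨g, h1, rfl⟩
    · rintro ⟨g, h1, rfl⟩
      exact ⟨_, ⟨g, h1, rfl⟩, rfl⟩
  obtain ⟨κ, hκ⟩ := Countable.exists_injective_nat (core φ B)
  refine ⟨κ, ⟨hκ, Subtype.val_injective, fun g b => rfl, ?_, ?_⟩, ?_⟩
  · intro b _ hfinb
    apply b.2.2
    have := hfinb.image Subtype.val
    rw [hO] at this
    refine this.subset ?_
    rintro _ ⟨g, rfl⟩
    exact ⟨g, fun c hc => absurd hc (Finset.notMem_empty c), rfl⟩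
  · have h1 := hfin ∅
    have h2 : (B \ {b | b ∈ B ∧ {x | ∃ g, (∀ c ∈ (∅ : Finset A), φ g c = c) ∧
        φ g b = x}.Finite}).Infinite := hBinf.sdiff h1
    obtain ⟨b, hb1, hb2⟩ := h2.nonempty
    refine ⟨⟨b, hb1, fun hfinb => hb2 ⟨hb1, hfinb.subset ?_⟩⟩⟩
    rintro _ ⟨g, -, rfl⟩
    exact ⟨g, rfl⟩
  · intro D
    have h1 := (hfin D).preimage (f := (Subtype.val : core φ B → A)) Subtype.val_injective.injOn
    refine h1.subset ?_
    intro b hb
    refine ⟨b.2.1, ?_⟩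
    have := hb.image Subtype.val
    rw [hO] at this
    exact this

/-- the theorem -/
theorem main [MeasurableSpace Γ] (hφ : ∀ a b, MeasurableSet {g | φ g a = b})
    (closed : ∀ σ : Equiv.Perm A, (∀ F : Finset A, ∃ g, ∀ a ∈ F, φ g a = σ a) → ∃ g, φ g = σ)
    {B : Set A} (hBinf : B.Infinite) (hB : ∀ g, ∀ b ∈ B, φ g b ∈ B)
    (hfin : ∀ F : Finset A,
      {b | b ∈ B ∧ {x | ∃ g, (∀ c ∈ F, φ g c = c) ∧ φ g b = x}.Finite}.Finite) :
    (TVC Γ → TVC (Equiv.Perm ℕ)) ∧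
    ∃ c : A → ℕ, ∀ τ : Equiv.Perm ℕ, ∃ g : Γ, ∀ a ∈ core φ B, c (φ g a) = τ (c a) ∧
      ∀ i, ∃ a ∈ core φ B, c a = i := by
  classical
  obtain ⟨κ, H, hf⟩ := setup hBinf hB hfin
  constructor
  · intro hT
    refine transfer H (fun a b => ?_) closed hf hT
    have : {g | rst φ (core φ B) (core_inv hB) g a = b} = {g | φ g a = b} := by
      ext g
      exact Subtype.ext_iff
    rw [this]
    exact hφ _ _
  · obtain ⟨c, hc⟩ := gen_exists (φ := φ) (ψ := rst φ (core φ B) (core_inv hB))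
      (j := Subtype.val)
    refine ⟨fun a => if h : a ∈ core φ B then c ⟨a, h⟩ else 0, fun τ => ?_⟩
    obtain ⟨g, hg⟩ := gen_conj hf H.hji H.hj H.h0 closed hc hc τ
    refine ⟨g, fun a ha => ⟨?_, fun i => ?_⟩⟩
    · have h1 := core_inv hB g a ha
      show (if h : φ g a ∈ core φ B then c ⟨φ g a, h⟩ else 0) =
        τ (if h : a ∈ core φ B then c ⟨a, h⟩ else 0)
      rw [dif_pos h1, dif_pos ha]
      exact hg ⟨a, ha⟩
    · obtain ⟨b, hb⟩ := surj H hc i
      refine ⟨b.1, b.2, ?_⟩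
      show (if h : b.1 ∈ core φ B then c ⟨b.1, h⟩ else 0) = i
      rw [dif_pos b.2]
      exact hb

end final

end Pool.Agent.W889.TW
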