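import Pool.Agent.W889.TW.Main

set_option autoImplicit false

/-! Oligomorphic groups. -/

namespace Pool.Agent.W889.TW

open Set

variable {Γ A : Type} [Group Γ] {φ : Γ →* Equiv.Perm A}

/-- finitely many orbits on tuples of each length -/
def Olig (φ : Γ →* Equiv.Perm A) : Prop :=
  ∀ n : ℕ, ∃ T : Set (Fin n → A), T.Finite ∧ ∀ s : Fin n → A, ∃ t ∈ T, ∃ g : Γ,
    ∀ i, φ g (t i) = s i

theorem olig_fin (h : Olig φ) (F : Finset A) :
    {b | b ∈ (Set.univ : Set A) ∧ {x | ∃ g, (∀ c ∈ F, φ g c = c) ∧ φ g b = x}.Finite}.Finite := by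
  classical
  obtain ⟨T, hT, hTs⟩ := h (F.card + 1)
  let e := F.equivFin
  let tup : A → (Fin (F.card + 1) → A) := fun b => Fin.snoc (fun i => (e.symm i).1) b
  let O : A → Set A := fun b => {x | ∃ g, (∀ c ∈ F, φ g c = c) ∧ φ g b = x}
  let r : (Fin (F.card + 1) → A) → A := fun t =>
    if h : ∃ b, ∃ g : Γ, ∀ i, φ g (t i) = tup b i then h.choose else t (Fin.last _)
  have hsub : {b | b ∈ (Set.univ : Set A) ∧ (O b).Finite} ⊆
      ⋃ t ∈ T, if (O (r t)).Finite then O (r t) else ∅ := by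
    rintro b ⟨-, hb⟩
    obtain ⟨t, ht, g, hg⟩ := hTs (tup b)
    have hex : ∃ b, ∃ g : Γ, ∀ i, φ g (t i) = tup b i := ⟨b, g, hg⟩
    have hr : r t = hex.choose := dif_pos hex
    obtain ⟨k, hk⟩ := hex.choose_spec
    rw [← hr] at hk
    -- the element `g * k⁻¹` fixes `F` and maps `r t` to `b`
    have h1 : ∀ i, φ (g * k⁻¹) (tup (r t) i) = tup b i := by
      intro i
      rw [← hk, hmul, hinv, hg]
    have h2 : ∀ c ∈ F, φ (g * k⁻¹) c = c := by
      intro c hc
      have h3 := h1 (Fin.castSucc (e ⟨c, hc⟩))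
      simp only [tup, Fin.snoc_castSucc, Equiv.symm_apply_apply] at h3
      exact h3
    have h3 : φ (g * k⁻¹) (r t) = b := by
      have h3 := h1 (Fin.last _)
      simp only [tup, Fin.snoc_last] at h3
      exact h3
    have h4 : O (r t) ⊆ O b := by
      rintro _ ⟨l, hl, rfl⟩
      refine ⟨l * (g * k⁻¹)⁻¹, fun c hc => ?_, ?_⟩
      · rw [hmul]
        have : φ (g * k⁻¹)⁻¹ c = c := by
          conv_lhs => rw [← h2 c hc]
          exact hinv _ _ _
        rw [this, hl c hc]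
      · rw [hmul]
        conv_lhs => rw [← h3]
        rw [hinv]
    rw [mem_iUnion₂]
    refine ⟨t, ht, ?_⟩
    rw [if_pos (hb.subset h4)]
    exact ⟨g * k⁻¹, h2, h3⟩
  refine Set.Finite.subset (hT.biUnion fun t _ => ?_) hsub
  by_cases hf : (O (r t)).Finite
  · rw [if_pos hf]
    exact hf
  · rw [if_neg hf]
    exact Set.finite_empty

end Pool.Agent.W889.TW
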